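import Pool.Agent.H25.PRD.Iden
import Pool.Agent.H75.PRL.S4

/-!
IDN: the Poonen-Rains weights.
-/

namespace Pool.PRL

theorem PR_eq_PRD (r : ℕ) : PR r = Pool.PRD.PR r := rfl

theorem idn : IDNStmt := by
  have h : PR = Pool.PRD.PR := funext PR_eq_PRD
  refine ⟨fun r => ?_, fun r => ?_, ?_, ?_, ?_, ?_, ?_⟩
  · rw [PR_eq_PRD]; exact Pool.PRD.PR_pos r
  · rw [PR_eq_PRD, PR_eq_PRD]; exact Pool.PRD.PR_rec r
  · rw [h]; exact Pool.PRD.hasSum_PR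
  · rw [h]; exact Pool.PRD.hasSum_alt_PR
  · rw [PR_eq_PRD]; exact Pool.PRD.PR_zero_bounds.1
  · rw [PR_eq_PRD]; exact Pool.PRD.PR_zero_bounds.2
  · rw [PR_eq_PRD, PR_eq_PRD]; exact Pool.PRD.PR_one

end Pool.PRL
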