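import Pool.Agent.H25.PRL.CGA

/-!
Many classes of square norm in a finite extension of odd degree three.
-/

set_option autoImplicit false

namespace Pool.PRL

namespace CG

open Ideal

theorem abstract_family {R K L O : Type} [CommRing R] [IsDomain R] [IsPrincipalIdealRing R]
    [Field K] [Algebra R K] [IsFractionRing R K] [Field L] [CommRing O] [IsDedekindDomain O]
    [Algebra K L] [Algebra R L] [IsScalarTower R K L] [Algebra R O] [Algebra O L]
    [IsScalarTower R O L] [IsFractionRing O L] [IsIntegralClosure O R L] [Module.Finite R O]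
    [Module.IsTorsionFree R O] [FiniteDimensional K L] [Finite (ClassGroup O)]
    {ι : Type} [Fintype ι] (h3 : Module.finrank K L = 3) (p : ι → Ideal O)
    (q : ι → R) (hp : ∀ i, Prime (p i)) (hinj : Function.Injective p)
    (hn : ∀ i, Ideal.relNorm R (p i) = Ideal.span {q i ^ 2})
    (hq : ∀ i, algebraMap R O (q i) ∈ p i) :
    ∃ (X : Type) (_ : Finite X) (u : X → L), 2 ^ Fintype.card ι ≤ Nat.card X ∧
      (∀ x, u x ≠ 0) ∧ (∀ x, IsSquare (Algebra.norm K (u x))) ∧
      (∀ x x', (∃ v : L, u x = u x' * v ^ 2) → x = x') ∧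
      ∀ x, ∀ Q : R, Q ≠ 0 → (∀ i, IsCoprime Q (q i)) →
        ∃ (s : L) (w w' r : O), u x * s ^ 2 = algebraMap O L w ∧
          w * w' = 1 + algebraMap R O Q * r := by
  classical
  obtain ⟨X, hX, u, A, S, hcard, hu0, hu, hinj2⟩ := ideal_family p hp hinj
  have hOL := IsFractionRing.injective O L
  have hRK := IsFractionRing.injective R K
  have hunit : ∀ x, ∃ (v : Rˣ) (g : R), Algebra.intNorm R O (u x) = v * g ^ 2 := by
    intro x
    have h1 := congrArg (Ideal.relNorm R) (hu x)
    rw [map_mul, map_pow, map_prod, Ideal.relNorm_singleton,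
      ← Ideal.span_singleton_generator (Ideal.relNorm R (A x)),
      Finset.prod_congr rfl (fun i _ => hn i), Ideal.prod_span_singleton,
      Ideal.span_singleton_pow, Ideal.span_singleton_mul_span_singleton,
      Ideal.span_singleton_eq_span_singleton] at h1
    obtain ⟨v, hv⟩ := h1.symm
    refine ⟨v, Submodule.IsPrincipal.generator (Ideal.relNorm R (A x)) * ∏ i ∈ S x, q i, ?_⟩
    rw [← hv, Finset.prod_pow]
    ring
  choose v g hvg using hunit
  have hnorm : ∀ x, Algebra.norm K (algebraMap O L (u x)) =
      algebraMap R K (v x * g x ^ 2) := by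
    intro x
    rw [← hvg, Algebra.algebraMap_intNorm (L := L)]
  refine ⟨X, hX, fun x => algebraMap R L (v x) * algebraMap O L (u x), hcard, ?_, ?_, ?_, ?_⟩
  · intro x
    refine mul_ne_zero ?_ ?_
    · rw [IsScalarTower.algebraMap_apply R K L]
      intro h
      rw [map_eq_zero_iff _ (algebraMap K L).injective, map_eq_zero_iff _ hRK] at h
      exact (v x).ne_zero h
    · rw [Ne, map_eq_zero_iff _ hOL]
      exact hu0 x
  · intro x
    simp only
    rw [map_mul, hnorm, IsScalarTower.algebraMap_apply R K L, Algebra.norm_algebraMap, h3]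
    refine ⟨algebraMap R K ((v x : R) ^ 2 * g x), ?_⟩
    rw [← map_pow, ← map_mul, ← map_mul]
    congr 1
    ring
  · rintro x x' ⟨z, hz⟩
    simp only at hz
    refine hinj2 x x' ?_
    obtain ⟨n, d, hd, rfl⟩ := IsFractionRing.div_surjective (A := O) z
    have hd0 : d ≠ 0 := nonZeroDivisors.ne_zero hd
    have hdL : algebraMap O L d ≠ 0 := by
      rw [Ne, map_eq_zero_iff _ hOL]
      exact hd0
    rw [IsScalarTower.algebraMap_apply R O L, IsScalarTower.algebraMap_apply R O L] at hz
    have h1 : algebraMap O L (algebraMap R O (v x) * u x * d ^ 2) =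
        algebraMap O L (algebraMap R O (v x') * u x' * n ^ 2) := by
      simp only [map_mul, map_pow]
      rw [hz, div_pow]
      field_simp
    have h2 := hOL h1
    have hn0 : n ≠ 0 := by
      rintro rfl
      rw [zero_pow two_ne_zero, mul_zero, mul_eq_zero, mul_eq_zero] at h2
      rcases h2 with (h2 | h2) | h2
      · have : IsUnit (algebraMap R O (v x : R)) := (v x).isUnit.map _
        rw [h2] at this
        exact not_isUnit_zero this
      · exact hu0 x h2
      · exact hd0 (pow_eq_zero_iff two_ne_zero |>.mp h2)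
    refine ⟨d, n, hd0, hn0, ?_⟩
    have hux : ∀ y : X, IsUnit (algebraMap R O (v y : R)) := fun y => (v y).isUnit.map _
    calc span {u x * d ^ 2} = span {algebraMap R O (v x) * u x * d ^ 2} := by
          rw [mul_assoc]
          exact (Ideal.span_singleton_mul_left_unit (hux x) _).symm
      _ = span {algebraMap R O (v x') * u x' * n ^ 2} := by rw [h2]
      _ = span {u x' * n ^ 2} := by
          rw [mul_assoc]
          exact Ideal.span_singleton_mul_left_unit (hux x') _
  · intro x Q hQ hQq
    have hQO : algebraMap R O Q ≠ 0 := by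
      intro h
      refine hQ ?_
      have h1 : algebraMap O L (algebraMap R O Q) = 0 := by rw [h, map_zero]
      rw [← IsScalarTower.algebraMap_apply R O L, IsScalarTower.algebraMap_apply R K L,
        map_eq_zero_iff _ (algebraMap K L).injective, map_eq_zero_iff _ hRK] at h1
      exact h1
    have hB : (∏ i ∈ S x, p i) ⊔ span {algebraMap R O Q} = ⊤ := by
      rw [← Ideal.isCoprime_iff_sup_eq]
      refine IsCoprime.prod_left fun i _ => ?_
      rw [Ideal.isCoprime_iff_sup_eq, Ideal.eq_top_iff_one]
      obtain ⟨α, β, hαβ⟩ := hQq i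
      have h1 : (1 : O) = algebraMap R O β * algebraMap R O (q i) +
          algebraMap R O α * algebraMap R O Q := by
        rw [← map_mul, ← map_mul, ← map_add, add_comm, hαβ, map_one]
      rw [h1]
      exact Submodule.add_mem_sup (Ideal.mul_mem_left _ _ (hq i))
        (Ideal.mul_mem_left _ _ (Ideal.mem_span_singleton_self _))
    obtain ⟨a, y, w, ha, hy, hw, hwQ⟩ := coprime_rep (hu0 x) (hu x)
      (Q := span {algebraMap R O Q}) (by
        rw [Ideal.zero_eq_bot, Ne, Ideal.span_singleton_eq_bot]
        exact hQO) hB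
    obtain ⟨w1, hw1, r1, hr1, hwr⟩ := Submodule.mem_sup.mp ((Ideal.eq_top_iff_one _).mp hwQ)
    obtain ⟨w2, rfl⟩ := Ideal.mem_span_singleton'.mp hw1
    obtain ⟨r2, rfl⟩ := Ideal.mem_span_singleton'.mp hr1
    have haL : algebraMap O L a ≠ 0 := by
      rw [Ne, map_eq_zero_iff _ hOL]
      exact ha
    refine ⟨algebraMap O L y / algebraMap O L a, algebraMap R O (v x) * w,
      algebraMap R O ((v x)⁻¹ : Rˣ) * w2, -r2, ?_, ?_⟩
    · simp only
      have h1 := congrArg (algebraMap O L) hw
      simp only [map_mul, map_pow] at h1 ⊢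
      rw [IsScalarTower.algebraMap_apply R O L, div_pow]
      field_simp
      linear_combination h1
    · have h1 : algebraMap R O (v x : R) * algebraMap R O ((v x)⁻¹ : Rˣ) = 1 := by
        rw [← map_mul, Units.mul_inv, map_one]
      linear_combination (w * w2) * h1 + hwr

end CG

end Pool.PRL
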