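import Pool.Agent.H25.PRL.CGP
import Pool.Agent.H25.PRL.CGN
import Pool.Agent.H75.PRL.S3
import Pool.Agent.H75.AVR.SFI
import Pool.Agent.H25.AVR.DSC
import Pool.Agent.H16.AVS.EMB

/-!
# CGB: the class group bound
-/

set_option autoImplicit false

namespace Pool.PRL

open Polynomial Matrix Pool.AVR Pool.AVS Pool.RZ

namespace CG

section Sep

variable {K : Type} [Field K] (g : K[X])

theorem isSep [Fact (Irreducible g)] (hm : g.Monic) (hsep : g.Separable) :
    Algebra.IsSeparable K (AdjoinRoot g) := by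
  have h1 : minpoly K (AdjoinRoot.root g) = g := by
    rw [AdjoinRoot.minpoly_root hm.ne_zero, hm.leadingCoeff, inv_one, C_1, mul_one]
  have h2 : IsSeparable K (AdjoinRoot.root g) := by
    rw [IsSeparable, h1]
    exact hsep
  have h3 : Algebra.IsSeparable K (IntermediateField.adjoin K {AdjoinRoot.root g}) := by
    rw [IntermediateField.isSeparable_adjoin_iff_isSeparable]
    intro x hx
    rw [Set.mem_singleton_iff.mp hx]
    exact h2
  rw [IntermediateField.adjoin_root_eq_top] at h3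
  exact AlgEquiv.Algebra.isSeparable IntermediateField.topEquiv

end Sep

section Family

theorem coprime_of_ne {F : Type} [Field F] {P Q : F[X]} (hP : P.Monic) (hP' : Irreducible P)
    (hQ : Q.Monic) (hQ' : Irreducible Q) (h : P ≠ Q) : IsCoprime P Q := by
  rw [hP'.coprime_iff_not_dvd]
  intro hd
  exact h (Polynomial.eq_of_monic_of_associated hP hQ (hP'.associated_of_dvd hQ' hd))

variable {F : Type} [Field F] [Finite F] (a b c : F[X])

/-- The family of classes, concretely. -/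
theorem family (hirr : Irreducible (cK (RatFunc F) a b c)) (hsep : (cK (RatFunc F) a b c).Separable)
    (hd : Squarefree (disc a b c)) (T : Finset F[X]) (hT : ∀ P ∈ T, P.Monic ∧ Irreducible P)
    (e β γ : T → F[X]) (h1 : ∀ P : T, (P : F[X]) ∣ a - (β P - e P))
    (h2 : ∀ P : T, (P : F[X]) ∣ b - (γ P - e P * β P))
    (h3 : ∀ P : T, (P : F[X]) ∣ c + e P * γ P)
    (h4 : ∀ P : T, ∀ x : F[X], ¬ (P : F[X]) ∣ x ^ 2 + β P * x + γ P) :
    ∃ (X : Type) (_ : Finite X) (u : X → AdjoinRoot (cK (RatFunc F) a b c)),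
      2 ^ T.card ≤ Nat.card X ∧ (∀ x, IsUnit (u x)) ∧
      (∀ x, IsSquare (Algebra.norm (RatFunc F) (u x))) ∧
      (∀ x x', (∃ v : AdjoinRoot (cK (RatFunc F) a b c), u x = u x' * v ^ 2) → x = x') ∧
      ∀ x, ∀ Q : F[X], Q.Monic → Irreducible Q → Q ∉ T →
        ∃ (s : AdjoinRoot (cK (RatFunc F) a b c)) (w w' r : AdjoinRoot (cub a b c)),
          u x * s ^ 2 = toL (RatFunc F) a b c w ∧
          w * w' = 1 + AdjoinRoot.mk _ (C Q) * r := by
  classical
  have hF : Fact (Irreducible (cK (RatFunc F) a b c)) := ⟨hirr⟩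
  have hsepL : Algebra.IsSeparable (RatFunc F) (AdjoinRoot (cK (RatFunc F) a b c)) :=
    isSep _ (cubM _ _ _) hsep
  have hfin : FiniteDimensional (RatFunc F) (AdjoinRoot (cK (RatFunc F) a b c)) :=
    Module.Finite.of_basis (NGH.pb _ _ _)
  have hrk : Module.finrank (RatFunc F) (AdjoinRoot (cK (RatFunc F) a b c)) = 3 := by
    rw [Module.finrank_eq_card_basis (NGH.pb _ _ _), Fintype.card_fin]
  let algOL : Algebra (AdjoinRoot (cub a b c)) (AdjoinRoot (cK (RatFunc F) a b c)) :=
    (toL (RatFunc F) a b c).toAlgebra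
  have hst : IsScalarTower F[X] (AdjoinRoot (cub a b c)) (AdjoinRoot (cK (RatFunc F) a b c)) :=
    IsScalarTower.of_algebraMap_eq fun r => (toL_of a b c r).symm
  have hcl : IsIntegralClosure (AdjoinRoot (cub a b c)) F[X]
      (AdjoinRoot (cK (RatFunc F) a b c)) := by
    refine ⟨toL_inj a b c, fun {x} => ⟨fun hx => mem_of_integral a b c hirr hd x hx, ?_⟩⟩
    rintro ⟨y, rfl⟩
    obtain ⟨v, hv⟩ := (mem_range_toL (K := RatFunc F) a b c _).mp ⟨y, rfl⟩
    have hv' : algebraMap (AdjoinRoot (cub a b c)) (AdjoinRoot (cK (RatFunc F) a b c)) y =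
      ∑ i, algebraMap F[X] (RatFunc F) (v i) • NGH.pb _ _ _ i := hv
    rw [hv']
    refine IsIntegral.sum _ fun i _ => ?_
    rw [Algebra.smul_def, ← IsScalarTower.algebraMap_apply F[X] (RatFunc F)]
    exact isIntegral_algebraMap.mul (isIntegral_pb a b c i)
  have hdom : IsDomain (AdjoinRoot (cub a b c)) := (toL_inj (K := RatFunc F) a b c).isDomain
  have hded : IsDedekindDomain (AdjoinRoot (cub a b c)) :=
    IsIntegralClosure.isDedekindDomain F[X] (RatFunc F) (AdjoinRoot (cK (RatFunc F) a b c)) _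
  have hfr : IsFractionRing (AdjoinRoot (cub a b c)) (AdjoinRoot (cK (RatFunc F) a b c)) :=
    IsIntegralClosure.isFractionRing_of_finite_extension F[X] (RatFunc F) _ _
  have htL : Module.IsTorsionFree F[X] (AdjoinRoot (cK (RatFunc F) a b c)) :=
    .trans_faithfulSMul F[X] (RatFunc F) _
  have hmf : Module.Finite F[X] (AdjoinRoot (cub a b c)) :=
    IsIntegralClosure.finite F[X] (RatFunc F) (AdjoinRoot (cK (RatFunc F) a b c)) _
  have htf : Module.IsTorsionFree F[X] (AdjoinRoot (cub a b c)) :=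
    IsIntegralClosure.isTorsionFree F[X] (AdjoinRoot (cK (RatFunc F) a b c))
  have hrkO : Module.finrank F[X] (AdjoinRoot (cub a b c)) = 3 := by
    rw [IsIntegralClosure.rank F[X] (RatFunc F) (AdjoinRoot (cK (RatFunc F) a b c))
      (AdjoinRoot (cub a b c)), hrk]
  have hcg : Finite (ClassGroup (AdjoinRoot (cub a b c))) := by
    have := Fintype.ofFinite F
    exact @Fintype.finite _ (ClassGroup.fintypeOfAdmissibleOfFinite (RatFunc F)
      (AdjoinRoot (cK (RatFunc F) a b c)) (Polynomial.cardPowDegreeIsAdmissible :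
        AbsoluteValue.IsAdmissible (Polynomial.cardPowDegree : AbsoluteValue F[X] ℤ)))
  have hprime : ∀ P : T, Prime (P : F[X]) := fun P => (hT P P.2).2.prime
  have hmemq : ∀ P : T, algebraMap F[X] (AdjoinRoot (cub a b c)) (P : F[X]) ∈
      q2 a b c (P : F[X]) (β P) (γ P) := fun P => Ideal.subset_span (Set.mem_insert _ _)
  have hne : ∀ Q : F[X], Q ≠ 0 → algebraMap F[X] (AdjoinRoot (cub a b c)) Q ≠ 0 := by
    intro Q hQ h
    have h5 := congrArg (algebraMap (AdjoinRoot (cub a b c)) (AdjoinRoot (cK (RatFunc F) a b c))) h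
    rw [map_zero, ← IsScalarTower.algebraMap_apply, IsScalarTower.algebraMap_apply F[X] (RatFunc F),
      map_eq_zero_iff _ (algebraMap (RatFunc F) (AdjoinRoot (cK (RatFunc F) a b c))).injective,
      map_eq_zero_iff _ (IsFractionRing.injective F[X] (RatFunc F))] at h5
    exact hQ h5
  have hqp : ∀ P : T, Prime (q2 a b c (P : F[X]) (β P) (γ P)) := by
    intro P
    refine Ideal.prime_of_isPrime ?_ (q2_prime (hprime P) (h1 P) (h2 P) (h3 P) (h4 P))
    intro hbot
    have h5 := hmemq P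
    rw [hbot, Ideal.mem_bot] at h5
    exact hne _ (hprime P).ne_zero h5
  have hqinj : Function.Injective (fun P : T => q2 a b c (P : F[X]) (β P) (γ P)) := by
    intro P P' hPP
    by_contra hcon
    have hcop := coprime_of_ne (hT P P.2).1 (hT P P.2).2 (hT P' P'.2).1 (hT P' P'.2).2
      (fun h => hcon (Subtype.ext h))
    obtain ⟨x, y, hxy⟩ := hcop
    have h5 : (1 : AdjoinRoot (cub a b c)) ∈ q2 a b c (P : F[X]) (β P) (γ P) := by
      rw [← map_one (algebraMap F[X] (AdjoinRoot (cub a b c))), ← hxy, map_add, map_mul, map_mul]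
      refine Ideal.add_mem _ (Ideal.mul_mem_left _ _ (hmemq P)) (Ideal.mul_mem_left _ _ ?_)
      have h6 := hmemq P'
      have h7 : q2 a b c (P : F[X]) (β P) (γ P) = q2 a b c (P' : F[X]) (β P') (γ P') := hPP
      rw [h7]
      exact h6
    exact (hqp P).not_isUnit (Ideal.isUnit_iff.mpr ((Ideal.eq_top_iff_one _).mpr h5))
  have hrel : ∀ P : T, Ideal.relNorm F[X] (q2 a b c (P : F[X]) (β P) (γ P)) =
      Ideal.span {(P : F[X]) ^ 2} := by
    intro P
    obtain ⟨x, hx1, hx2⟩ := val_sq (c := c) (hprime P) (h1 P) (h2 P) (h4 P)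
    have hcop : IsCoprime (P : F[X]) (e P ^ 2 + β P * e P + γ P) := by
      rw [(hT P P.2).2.coprime_iff_not_dvd]
      exact h4 P (e P)
    refine relNorm_two hrkO P (hprime P) (q1 a b c (P : F[X]) (e P)) _
      (q1_mul_q2 (h1 P) (h2 P) (h3 P) hcop) (q1_ne_top (h1 P) (h2 P) (h3 P) (hprime P).not_isUnit)
      (AdjoinRoot.mk _ (C x - X)) (mem_q1 hx1) ?_
    have h8 : Algebra.intNorm F[X] (AdjoinRoot (cub a b c)) (AdjoinRoot.mk _ (C x - X)) =
        x ^ 3 + a * x ^ 2 + b * x + c := by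
      apply IsFractionRing.injective F[X] (RatFunc F)
      rw [Algebra.algebraMap_intNorm (L := AdjoinRoot (cK (RatFunc F) a b c))]
      have h9 : algebraMap (AdjoinRoot (cub a b c)) (AdjoinRoot (cK (RatFunc F) a b c))
          (AdjoinRoot.mk _ (C x - X)) = AdjoinRoot.mk _ (C (algebraMap F[X] (RatFunc F) x) - X) := by
        change toL (RatFunc F) a b c _ = _
        rw [toL_mk, Polynomial.map_sub, map_C, map_X]
      rw [h9, Pool.Agent.H16.AVS.norm_sub _ (cubM _ _ _), Pool.Agent.H16.AVS.cub_eval]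
      simp only [map_add, map_mul, map_pow]
    rw [h8]
    exact hx2
  obtain ⟨X, hX, u, hcard, hu0, husq, huinj, hloc⟩ := abstract_family (R := F[X]) (K := RatFunc F)
    (L := AdjoinRoot (cK (RatFunc F) a b c)) (O := AdjoinRoot (cub a b c)) hrk
    (fun P : T => q2 a b c (P : F[X]) (β P) (γ P)) (fun P : T => (P : F[X])) hqp hqinj hrel hmemq
  refine ⟨X, hX, u, ?_, fun x => isUnit_iff_ne_zero.mpr (hu0 x), husq, huinj, ?_⟩
  · rwa [Fintype.card_coe] at hcard
  · intro x Q hQm hQi hQT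
    exact hloc x Q hQi.ne_zero (fun P => coprime_of_ne hQm hQi (hT P P.2).1 (hT P P.2).2
      (fun h => hQT (h ▸ P.2)))

end Family

end CG

open CG in
/-- **CGB.** -/
theorem cgb : CGBStmt := by
  classical
  intro F _ _ h2 n T f hn hT hf hfin
  obtain ⟨hSF, hT12, hNR⟩ := hf
  obtain ⟨_, hirr, hsep⟩ := sfi_thm DSC_thm F h2 n hn hSF
  choose! e β γ hspl using hT12
  obtain ⟨X, hX, u, hcard, hu0, husq, huinj, hloc⟩ := family f.1 f.2.1 f.2.2 hirr hsep hSF.2.1 T hT
    (fun P => e P) (fun P => β P) (fun P => γ P) (fun P => (hspl P P.2).2.1)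
    (fun P => (hspl P P.2).2.2.1) (fun P => (hspl P P.2).2.2.2.1) (fun P => (hspl P P.2).1)
  let U : X → (Alg f)ˣ := fun x => (hu0 x).unit
  let ξ : X → (Alg f)ˣ ⧸ Sq f := fun x => QuotientGroup.mk (U x)
  have hinj : Function.Injective ξ := by
    intro x x' h
    have h5 : (U x)⁻¹ * U x' ∈ Sq f := QuotientGroup.eq.mp h
    obtain ⟨v, hv⟩ := h5
    refine huinj x x' ⟨((v⁻¹ : (Alg f)ˣ) : Alg f), ?_⟩
    have h6 : U x = U x' * v⁻¹ ^ 2 := by
      have h7 : v ^ 2 = (U x)⁻¹ * U x' := hv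
      rw [inv_pow, h7, _root_.mul_inv_rev, inv_inv, mul_inv_cancel_left]
    have h8 := congrArg (fun z : (Alg f)ˣ => (z : Alg f)) h6
    simp only [Units.val_mul, Units.val_pow_eq_pow_val] at h8
    exact h8
  have hmem : ∀ x, ξ x ∈ Rc f T := by
    intro x
    obtain ⟨h, hh0⟩ := AdjoinRoot.mk_surjective (u x)
    have hh : AdjoinRoot.mk (cubK f) h = u x := hh0
    refine ⟨U x, h, rfl, hh.symm, ?_, ?_⟩
    · have := husq x
      rw [← hh] at this
      exact this
    · intro P hPm hPi hPT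
      obtain ⟨s, w, w', r, hs, hw⟩ := hloc x P hPm hPi hPT
      obtain ⟨s', rfl⟩ := AdjoinRoot.mk_surjective s
      obtain ⟨p, rfl⟩ := AdjoinRoot.mk_surjective w
      obtain ⟨p', rfl⟩ := AdjoinRoot.mk_surjective w'
      obtain ⟨r', rfl⟩ := AdjoinRoot.mk_surjective r
      refine ⟨s', p, ?_, p', r', ?_⟩
      · have h9 : AdjoinRoot.mk (cubK f) (h * s' ^ 2 - lf p) = 0 := by
          rw [map_sub, map_mul, map_pow, sub_eq_zero, hh]
          rw [toL_mk] at hs
          exact hs
        exact AdjoinRoot.mk_eq_zero.mp h9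
      · have h9 : AdjoinRoot.mk (cubP f) (p * p' - 1 - C P * r') = 0 := by
          rw [map_sub, map_sub, map_mul, map_mul, map_one, sub_sub, sub_eq_zero]
          exact hw
        exact AdjoinRoot.mk_eq_zero.mp h9
  calc 2 ^ T.card ≤ Nat.card X := hcard
    _ = (Set.range ξ).ncard := by
      rw [← Set.image_univ, Set.ncard_image_of_injective _ hinj, Set.ncard_univ]
    _ ≤ (Rc f T).ncard := Set.ncard_le_ncard (Set.range_subset_iff.mpr hmem) hfin

end Pool.PRL
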