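import Pool.Agent.H25.PRL.Grp

/-!
Dedekind domains with finite class group: many elements `u` with
`(u) = A^2 * prod_{i in S} p_i`, pairwise different modulo squares; representatives which are
units modulo a given ideal.
-/

set_option autoImplicit false

namespace Pool.PRL

open Ideal UniqueFactorizationMonoid

universe uo ui

section

variable {O : Type uo} [CommRing O] [IsDedekindDomain O]

open Classical in
theorem nf_prod {ι : Type*} (p : ι → Ideal O) (hp : ∀ i, Prime (p i)) (S : Finset ι) :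
    normalizedFactors (∏ i ∈ S, p i) = S.val.map p := by
  rw [Finset.prod_eq_multiset_prod]
  exact normalizedFactors_prod_of_prime (fun x hx => by
    obtain ⟨i, _, rfl⟩ := Multiset.mem_map.mp hx
    exact hp i)

open Classical in
/-- The set `S` and the ideal `I` are determined by `I^2 * prod_{i in S} p_i`. -/
theorem sq_prod_inj {ι : Type*} (p : ι → Ideal O) (hp : ∀ i, Prime (p i))
    (hinj : Function.Injective p) (S S' : Finset ι) (I J : Ideal O) (hI : I ≠ 0) (hJ : J ≠ 0)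
    (h : I ^ 2 * ∏ i ∈ S, p i = J ^ 2 * ∏ i ∈ S', p i) : S = S' ∧ I = J := by
  have hS : ∏ i ∈ S, p i ≠ 0 := Finset.prod_ne_zero_iff.mpr fun i _ => (hp i).ne_zero
  have hS' : ∏ i ∈ S', p i ≠ 0 := Finset.prod_ne_zero_iff.mpr fun i _ => (hp i).ne_zero
  have h1 := congrArg normalizedFactors h
  rw [normalizedFactors_mul (pow_ne_zero 2 hI) hS, normalizedFactors_mul (pow_ne_zero 2 hJ) hS',
    normalizedFactors_pow, normalizedFactors_pow, nf_prod p hp, nf_prod p hp] at h1
  have hSS : S = S' := by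
    ext i
    have h2 := congrArg (Multiset.count (p i)) h1
    rw [Multiset.count_add, Multiset.count_add, Multiset.count_nsmul, Multiset.count_nsmul,
      Multiset.count_map_eq_count' p _ hinj, Multiset.count_map_eq_count' p _ hinj] at h2
    have h3 : ∀ Z : Finset ι, Multiset.count i Z.val = if i ∈ Z then 1 else 0 := by
      intro Z
      exact Multiset.count_eq_of_nodup Z.nodup
    rw [h3, h3] at h2
    split_ifs at h2 with ha hb hb
    · exact ⟨fun _ => hb, fun _ => ha⟩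
    · omega
    · omega
    · exact ⟨fun x => absurd x ha, fun x => absurd x hb⟩
  subst hSS
  refine ⟨rfl, ?_⟩
  have h2 := add_right_cancel h1
  have h4 : normalizedFactors I = normalizedFactors J := by
    ext q
    have h5 := congrArg (Multiset.count q) h2
    rw [Multiset.count_nsmul, Multiset.count_nsmul] at h5
    omega
  have h6 : Associated I J := (associated_iff_normalizedFactors_eq_normalizedFactors hI hJ).mpr h4
  exact associated_iff_eq.mp h6

/-- Many elements. -/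
theorem ideal_family [Finite (ClassGroup O)] {ι : Type ui} [Fintype ι] [DecidableEq ι]
    (p : ι → Ideal O) (hp : ∀ i, Prime (p i)) (hinj : Function.Injective p) :
    ∃ (X : Type (max uo ui)) (_ : Finite X) (u : X → O) (A : X → Ideal O) (S : X → Finset ι),
      2 ^ Fintype.card ι ≤ Nat.card X ∧ (∀ x, u x ≠ 0) ∧
      (∀ x, span {u x} = A x ^ 2 * ∏ i ∈ S x, p i) ∧
      ∀ x x', (∃ y z : O, y ≠ 0 ∧ z ≠ 0 ∧ span {u x * y ^ 2} = span {u x' * z ^ 2}) → x = x' := by
  classical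
  let g : ι → ClassGroup O := fun i =>
    ClassGroup.mk0 ⟨p i, mem_nonZeroDivisors_of_ne_zero (hp i).ne_zero⟩
  have hsurj := fun c : ClassGroup O => ClassGroup.mk0_surjective c
  choose A hA using hsurj
  let X := {q : Finset ι × ClassGroup O // q.2 ^ 2 * ∏ i ∈ q.1, g i = 1}
  have hpr : ∀ x : X, ∃ u : O, u ≠ 0 ∧
      span {u} = (A x.1.2 : Ideal O) ^ 2 * ∏ i ∈ x.1.1, p i := by
    intro x
    let P : nonZeroDivisors (Ideal O) := A x.1.2 ^ 2 *
      ∏ i ∈ x.1.1, ⟨p i, mem_nonZeroDivisors_of_ne_zero (hp i).ne_zero⟩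
    have h1 : ClassGroup.mk0 P = 1 := by
      rw [map_mul, map_pow, map_prod, hA]
      exact x.2
    have h2 : (P : Ideal O) = (A x.1.2 : Ideal O) ^ 2 * ∏ i ∈ x.1.1, p i := by
      simp [P]
    have h3 : ClassGroup.mk0 (⟨(P : Ideal O), P.2⟩ : nonZeroDivisors (Ideal O)) = 1 := h1
    rw [ClassGroup.mk0_eq_one_iff] at h3
    obtain ⟨u, hu⟩ := h3
    have hu' : (P : Ideal O) = span {u} := hu
    refine ⟨u, ?_, by rw [← hu', h2]⟩
    rintro rfl
    have : (P : Ideal O) = 0 := by rw [hu', Ideal.zero_eq_bot, Ideal.span_singleton_eq_bot]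
    exact nonZeroDivisors.coe_ne_zero P this
  choose u hu0 hu using hpr
  refine ⟨X, inferInstance, u, fun x => (A x.1.2 : Ideal O), fun x => x.1.1, group_count g, hu0, hu,
    ?_⟩
  rintro x x' ⟨y, z, hy, hz, h⟩
  have hy' : span {y} ≠ (0 : Ideal O) := by
    rw [Ideal.zero_eq_bot, Ne, Ideal.span_singleton_eq_bot]; exact hy
  have hz' : span {z} ≠ (0 : Ideal O) := by
    rw [Ideal.zero_eq_bot, Ne, Ideal.span_singleton_eq_bot]; exact hz
  have hAx : (A x.1.2 : Ideal O) ≠ 0 := nonZeroDivisors.coe_ne_zero _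
  have hAx' : (A x'.1.2 : Ideal O) ≠ 0 := nonZeroDivisors.coe_ne_zero _
  rw [← Ideal.span_singleton_mul_span_singleton, ← Ideal.span_singleton_mul_span_singleton,
    ← Ideal.span_singleton_pow, ← Ideal.span_singleton_pow, hu, hu] at h
  have h' : ((A x.1.2 : Ideal O) * span {y}) ^ 2 * ∏ i ∈ x.1.1, p i =
      ((A x'.1.2 : Ideal O) * span {z}) ^ 2 * ∏ i ∈ x'.1.1, p i := by
    rw [mul_pow, mul_pow]
    calc _ = (A x.1.2 : Ideal O) ^ 2 * (∏ i ∈ x.1.1, p i) * span {y} ^ 2 := by ring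
      _ = (A x'.1.2 : Ideal O) ^ 2 * (∏ i ∈ x'.1.1, p i) * span {z} ^ 2 := h
      _ = _ := by ring
  obtain ⟨h1, h2⟩ := sq_prod_inj p hp hinj _ _ _ _ (mul_ne_zero hAx hy') (mul_ne_zero hAx' hz') h'
  have h3 : ClassGroup.mk0 (A x.1.2) = ClassGroup.mk0 (A x'.1.2) := by
    rw [ClassGroup.mk0_eq_mk0_iff]
    exact ⟨y, z, hy, hz, by rw [mul_comm, h2, mul_comm]⟩
  rw [hA, hA] at h3
  exact Subtype.ext (Prod.ext h1 h3)

/-- A representative modulo squares which is a unit modulo `Q`. -/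
theorem coprime_rep {u : O} {A B Q : Ideal O} (hu : u ≠ 0) (h : span {u} = A ^ 2 * B)
    (hQ0 : Q ≠ 0) (hBQ : B ⊔ Q = ⊤) :
    ∃ x y w : O, x ≠ 0 ∧ y ≠ 0 ∧ u * y ^ 2 = x ^ 2 * w ∧ span {w} ⊔ Q = ⊤ := by
  by_cases hQ : Q = ⊤
  · exact ⟨1, 1, u, one_ne_zero, one_ne_zero, by ring, by rw [hQ, sup_top_eq]⟩
  have hA : A ≠ 0 := by
    rintro rfl
    rw [zero_pow two_ne_zero, zero_mul, Ideal.zero_eq_bot, Ideal.span_singleton_eq_bot] at h
    exact hu h
  obtain ⟨a, ha⟩ := IsDedekindDomain.exists_sup_span_eq (I := A * Q) (J := A) Ideal.mul_le_left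
    (mul_ne_zero hA hQ0)
  have ha0 : a ≠ 0 := by
    rintro rfl
    rw [Ideal.span_singleton_eq_bot.mpr rfl, sup_bot_eq] at ha
    exact hQ (by
      have : A * Q = A * 1 := by rw [mul_one]; exact ha
      have := mul_left_cancel₀ hA this
      rw [this, Ideal.one_eq_top])
  have haA : a ∈ A := by
    rw [← ha]
    exact Ideal.mem_sup_right (Ideal.mem_span_singleton_self a)
  obtain ⟨C, hC⟩ := Ideal.dvd_span_singleton.mpr haA
  have hQC : Q ⊔ C = ⊤ := by
    rw [hC, ← Ideal.mul_sup] at ha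
    have : A * (Q ⊔ C) = A * 1 := by rw [mul_one]; exact ha
    rw [mul_left_cancel₀ hA this, Ideal.one_eq_top]
  obtain ⟨q, hq, y, hy, hqy⟩ := Submodule.mem_sup.mp ((Ideal.eq_top_iff_one _).mp hQC)
  have hy0 : y ≠ 0 := by
    rintro rfl
    rw [add_zero] at hqy
    exact hQ ((Ideal.eq_top_iff_one _).mpr (hqy ▸ hq))
  obtain ⟨D, hD⟩ := Ideal.dvd_span_singleton.mpr hy
  have hyQ : span {y} ⊔ Q = ⊤ := by
    rw [Ideal.eq_top_iff_one, ← hqy, add_comm]
    exact Submodule.add_mem_sup (Ideal.mem_span_singleton_self y) hq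
  have hDQ : D ⊔ Q = ⊤ := by
    rw [eq_top_iff, ← hyQ]
    refine sup_le_sup_right ?_ Q
    rw [hD]
    exact Ideal.mul_le_right
  have e1 : span {u * y ^ 2} = span {a ^ 2} * (B * D ^ 2) := by
    rw [← Ideal.span_singleton_mul_span_singleton, ← Ideal.span_singleton_pow,
      ← Ideal.span_singleton_pow, h, hC, hD]
    ring
  have e2 : a ^ 2 ∣ u * y ^ 2 := by
    rw [← Ideal.span_singleton_le_span_singleton, e1]
    exact Ideal.mul_le_left
  obtain ⟨w, hw⟩ := e2
  refine ⟨a, y, w, ha0, hy0, hw, ?_⟩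
  have ha2 : span {a ^ 2} ≠ (0 : Ideal O) := by
    rw [Ideal.zero_eq_bot, Ne, Ideal.span_singleton_eq_bot]
    exact pow_ne_zero 2 ha0
  have e3 : span {w} = B * D ^ 2 := by
    rw [hw, ← Ideal.span_singleton_mul_span_singleton] at e1
    exact mul_left_cancel₀ ha2 e1
  rw [e3, ← Ideal.isCoprime_iff_sup_eq]
  exact IsCoprime.mul_left (Ideal.isCoprime_iff_sup_eq.mpr hBQ)
    (IsCoprime.pow_left (Ideal.isCoprime_iff_sup_eq.mpr hDQ))

end

end Pool.PRL
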