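import Pool.Agent.H33.AVS.NGH
import Pool.Agent.H25.PRL.CGA

/-!
The ring `R[X] / (X^3 + a X^2 + b X + c)` is integrally closed when the discriminant is squarefree.
-/

set_option autoImplicit false

namespace Pool.PRL

open Polynomial Matrix Pool.AVR Pool.AVS

namespace CG

section General

variable {R : Type} [CommRing R]

theorem cub_map {S : Type} [CommRing S] (φ : R →+* S) (a b c : R) :
    (cub a b c).map φ = cub (φ a) (φ b) (φ c) := by
  simp [cub, Polynomial.map_add, Polynomial.map_mul, Polynomial.map_pow]

theorem cubM [Nontrivial R] (a b c : R) : (cub a b c).Monic := by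
  unfold cub; monicity!

theorem cubN [Nontrivial R] (a b c : R) : (cub a b c).natDegree = 3 := by
  unfold cub; compute_degree!

end General

section Trace

variable {K : Type} [Field K] (a b c : K)

/-- The companion matrix. -/
def cm : Matrix (Fin 3) (Fin 3) K := !![0, 0, -c; 1, 0, -b; 0, 1, -a]

theorem root_pb0 : AdjoinRoot.root (cub a b c) * NGH.pb a b c 0 = NGH.pb a b c 1 := by
  rw [NGH.pb_apply, NGH.pb_apply]
  simp

theorem root_pb1 : AdjoinRoot.root (cub a b c) * NGH.pb a b c 1 = NGH.pb a b c 2 := by
  rw [NGH.pb_apply, NGH.pb_apply]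
  simp [pow_two]

theorem root_pb2 : AdjoinRoot.root (cub a b c) * NGH.pb a b c 2 =
    (-c) • NGH.pb a b c 0 + (-b) • NGH.pb a b c 1 + (-a) • NGH.pb a b c 2 := by
  rw [NGH.pb_apply, NGH.pb_apply, NGH.pb_apply]
  have h : AdjoinRoot.mk (cub a b c) (X ^ 3 + C a * X ^ 2 + C b * X + C c) = 0 :=
    AdjoinRoot.mk_self
  have h1 : AdjoinRoot.mk (cub a b c) (X ^ 3) + algebraMap K _ a * AdjoinRoot.mk (cub a b c) (X ^ 2) +
      algebraMap K _ b * AdjoinRoot.mk (cub a b c) X + algebraMap K _ c = 0 := by
    rw [map_add, map_add, map_add, map_mul, map_mul] at h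
    exact h
  simp only [Algebra.smul_def, map_neg]
  simp only [Fin.isValue, Fin.val_zero, Fin.val_one, Fin.val_two, pow_zero, pow_one,
    map_one, AdjoinRoot.mk_X, map_pow] at h1 ⊢
  linear_combination h1

theorem leftMul_root : Algebra.leftMulMatrix (NGH.pb a b c) (AdjoinRoot.root (cub a b c)) =
    cm a b c := by
  ext i j
  rw [Algebra.leftMulMatrix_eq_repr_mul]
  fin_cases j
  · have := root_pb0 a b c
    simp only [Fin.zero_eta, Fin.isValue] at this ⊢
    rw [this]
    fin_cases i <;> simp [cm]
  · have := root_pb1 a b c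
    simp only [Fin.isValue, Fin.mk_one] at this ⊢
    rw [this]
    fin_cases i <;> simp [cm]
  · have := root_pb2 a b c
    simp only [Fin.isValue, Fin.reduceFinMk] at this ⊢
    rw [this]
    fin_cases i <;> simp [cm]

theorem trace_pow (n : ℕ) : Algebra.trace K (AdjoinRoot (cub a b c))
    (AdjoinRoot.mk (cub a b c) (X ^ n)) = (cm a b c ^ n).trace := by
  rw [Algebra.trace_eq_matrix_trace (NGH.pb a b c), map_pow, AdjoinRoot.mk_X, map_pow, leftMul_root]

theorem discr_pb : Algebra.discr K (NGH.pb a b c) = disc a b c := by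
  rw [Algebra.discr_def]
  have h : Algebra.traceMatrix K (NGH.pb a b c) =
      Matrix.of fun i j : Fin 3 => (cm a b c ^ ((i : ℕ) + (j : ℕ))).trace := by
    ext i j
    rw [Algebra.traceMatrix_apply, Algebra.traceForm_apply, NGH.pb_apply, NGH.pb_apply, ← map_mul,
      ← pow_add, trace_pow]
    rfl
  rw [h, Matrix.det_fin_three]
  simp only [Matrix.of_apply]
  have e0 : (cm a b c ^ 0).trace = 3 := by
    rw [pow_zero, Matrix.trace_one]; simp
  have e1 : (cm a b c ^ 1).trace = -a := by
    rw [pow_one, Matrix.trace_fin_three]; simp [cm]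
  have m2 : cm a b c ^ 2 = !![0, -c, a * c; 0, -b, a * b - c; 1, -a, a ^ 2 - b] := by
    rw [pow_two, cm]
    ext i j
    fin_cases i <;> fin_cases j <;> simp [Matrix.mul_apply, Fin.sum_univ_three] <;> ring
  have e2 : (cm a b c ^ 2).trace = a ^ 2 - 2 * b := by
    rw [m2, Matrix.trace_fin_three]; simp; ring
  have e3 : (cm a b c ^ 3).trace = -a ^ 3 + 3 * a * b - 3 * c := by
    rw [pow_succ, m2, Matrix.trace_fin_three, cm]
    simp [Matrix.mul_apply, Fin.sum_univ_three]
    ring
  have e4 : (cm a b c ^ 4).trace = a ^ 4 - 4 * a ^ 2 * b + 4 * a * c + 2 * b ^ 2 := by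
    rw [show (4 : ℕ) = 2 + 2 from rfl, pow_add, m2, Matrix.trace_fin_three]
    simp [Matrix.mul_apply, Fin.sum_univ_three]
    ring
  simp only [Fin.isValue, Fin.val_zero, Fin.val_one, Fin.val_two, zero_add, add_zero,
    Nat.reduceAdd]
  rw [e0, e1, e2, e3, e4, disc]
  ring

end Trace

section Int

variable {R K : Type} [CommRing R] [IsDomain R] [IsPrincipalIdealRing R] [Field K] [Algebra R K]
  [IsFractionRing R K]

variable (K) in
/-- The cubic over the fraction field. -/
noncomputable abbrev cK (a b c : R) : K[X] :=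
  cub (algebraMap R K a) (algebraMap R K b) (algebraMap R K c)

variable (K) in
/-- The inclusion of the orders. -/
noncomputable def toL (a b c : R) : AdjoinRoot (cub a b c) →+* AdjoinRoot (cK K a b c) :=
  AdjoinRoot.lift ((AdjoinRoot.of (cK K a b c)).comp (algebraMap R K))
    (AdjoinRoot.root (cK K a b c)) (by
      rw [← Polynomial.eval₂_map, cub_map]
      exact AdjoinRoot.eval₂_root _)

variable (a b c : R)

theorem toL_mk (p : R[X]) : toL K a b c (AdjoinRoot.mk _ p) =
    AdjoinRoot.mk (cK K a b c) (p.map (algebraMap R K)) := by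
  rw [toL, AdjoinRoot.lift_mk, ← Polynomial.eval₂_map, ← AdjoinRoot.aeval_eq, Polynomial.aeval_def]
  rfl

theorem toL_inj : Function.Injective (toL K a b c) := by
  rw [injective_iff_map_eq_zero]
  intro x hx
  obtain ⟨p, rfl⟩ := AdjoinRoot.mk_surjective x
  rw [toL_mk, AdjoinRoot.mk_eq_zero, cK, ← cub_map] at hx
  rw [AdjoinRoot.mk_eq_zero]
  exact (Polynomial.map_dvd_map _ (IsFractionRing.injective R K) (cubM a b c)).mp hx

theorem toL_of (r : R) : toL K a b c (algebraMap R _ r) = algebraMap R (AdjoinRoot (cK K a b c)) r := by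
  rw [toL, AdjoinRoot.algebraMap_eq, AdjoinRoot.lift_of]
  rfl

/-- Elements of the order in coordinates. -/
theorem mem_range_toL (z : AdjoinRoot (cK K a b c)) : z ∈ (toL K a b c).range ↔
    ∃ v : Fin 3 → R, z = ∑ i, algebraMap R K (v i) • NGH.pb _ _ _ i := by
  constructor
  · rintro ⟨x, rfl⟩
    obtain ⟨p, rfl⟩ := AdjoinRoot.mk_surjective x
    have h1 : AdjoinRoot.mk (cub a b c) p = AdjoinRoot.mk (cub a b c) (p %ₘ cub a b c) := by
      conv_lhs => rw [← Polynomial.modByMonic_add_div p (cub a b c)]
      rw [map_add, map_mul, AdjoinRoot.mk_self, zero_mul, add_zero]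
    refine ⟨fun i => (p %ₘ cub a b c).coeff i, ?_⟩
    have h2 : (p %ₘ cub a b c).natDegree < 3 := by
      have := Polynomial.natDegree_modByMonic_lt p (cubM a b c) (by
        intro h
        have := congrArg natDegree h
        rw [cubN, natDegree_one] at this
        omega)
      rwa [cubN] at this
    rw [h1, toL_mk]
    conv_lhs => rw [Polynomial.as_sum_range' (p %ₘ cub a b c) 3 h2]
    rw [Polynomial.map_sum, map_sum, Finset.sum_range]
    refine Finset.sum_congr rfl fun i _ => ?_
    rw [NGH.pb_apply, Polynomial.map_monomial, ← Polynomial.C_mul_X_pow_eq_monomial, map_mul,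
      Algebra.smul_def]
    rfl
  · rintro ⟨v, rfl⟩
    refine Subring.sum_mem _ fun i _ => ?_
    refine ⟨AdjoinRoot.mk _ (C (v i) * X ^ (i : ℕ)), ?_⟩
    rw [toL_mk, NGH.pb_apply, Polynomial.map_mul, Polynomial.map_C, Polynomial.map_pow,
      Polynomial.map_X, map_mul, Algebra.smul_def]
    rfl

theorem isIntegral_root : IsIntegral R (AdjoinRoot.root (cK K a b c)) := by
  refine ⟨cub a b c, cubM a b c, ?_⟩
  have h : eval₂ (AdjoinRoot.of (cK K a b c)) (AdjoinRoot.root (cK K a b c))
      ((cub a b c).map (algebraMap R K)) = 0 := by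
    rw [cub_map]
    exact AdjoinRoot.eval₂_root (cK K a b c)
  rw [Polynomial.eval₂_map] at h
  exact h

theorem isIntegral_pb (i : Fin 3) : IsIntegral R (NGH.pb (algebraMap R K a) (algebraMap R K b)
    (algebraMap R K c) i) := by
  rw [NGH.pb_apply, map_pow, AdjoinRoot.mk_X]
  exact (isIntegral_root a b c).pow _

/-- One prime. -/
theorem step (hK : Irreducible (cK K a b c)) (P : R) (hP : Prime P)
    (hd : ¬ P ^ 2 ∣ disc a b c) (z : AdjoinRoot (cK K a b c)) (hz : IsIntegral R z)
    (h : algebraMap R K P • z ∈ (toL K a b c).range) : z ∈ (toL K a b c).range := by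
  have hF : Fact (Irreducible (cK K a b c)) := ⟨hK⟩
  have hfin : Module.Finite K (AdjoinRoot (cK K a b c)) := Module.Finite.of_basis (NGH.pb _ _ _)
  obtain ⟨v, hv⟩ := (mem_range_toL a b c _).mp h
  have hP0 : algebraMap R K P ≠ 0 := by
    rw [Ne, IsFractionRing.to_map_eq_zero_iff]
    exact hP.ne_zero
  by_cases hall : ∀ i, P ∣ v i
  · choose w hw using hall
    refine (mem_range_toL a b c _).mpr ⟨w, ?_⟩
    have : z = (algebraMap R K P)⁻¹ • (algebraMap R K P • z) := by
      rw [smul_smul, inv_mul_cancel₀ hP0, one_smul]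
    rw [this, hv, Finset.smul_sum]
    refine Finset.sum_congr rfl fun i _ => ?_
    rw [smul_smul, hw i, map_mul, ← mul_assoc, inv_mul_cancel₀ hP0, one_mul]
  · exfalso
    push Not at hall
    obtain ⟨k, hk⟩ := hall
    let M : Matrix (Fin 3) (Fin 3) K := (1 : Matrix (Fin 3) (Fin 3) K).updateRow k
      (fun j => (algebraMap R K P)⁻¹ * algebraMap R K (v j))
    have hM : M.det = (algebraMap R K P)⁻¹ * algebraMap R K (v k) := by
      have h1 : M.det = (Mᵀ).det := (Matrix.det_transpose M).symm
      have h2 : Mᵀ = (1 : Matrix (Fin 3) (Fin 3) K).updateCol k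
          (fun j => (algebraMap R K P)⁻¹ * algebraMap R K (v j)) := by
        change ((1 : Matrix (Fin 3) (Fin 3) K).updateRow k
          (fun j => (algebraMap R K P)⁻¹ * algebraMap R K (v j)))ᵀ = _
        rw [← Matrix.updateCol_transpose, Matrix.transpose_one]
      rw [h1, h2, ← Matrix.cramer_apply, Matrix.cramer_one]
      rfl
    have h3 := Algebra.discr_of_matrix_mulVec (A := K)
      (NGH.pb (algebraMap R K a) (algebraMap R K b) (algebraMap R K c)) M
    have h4 : IsIntegral R (Algebra.discr K (M.map (algebraMap K (AdjoinRoot (cK K a b c))) *ᵥ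
        (NGH.pb (algebraMap R K a) (algebraMap R K b) (algebraMap R K c)))) := by
      refine Algebra.discr_isIntegral K fun i => ?_
      by_cases hi : i = k
      · subst hi
        have : (M.map (algebraMap K (AdjoinRoot (cK K a b c))) *ᵥ
            (NGH.pb (algebraMap R K a) (algebraMap R K b) (algebraMap R K c))) i = z := by
          rw [Matrix.mulVec, dotProduct]
          simp only [Matrix.map_apply, M, Matrix.updateRow_self]
          have h5 : z = (algebraMap R K P)⁻¹ • (algebraMap R K P • z) := by
            rw [smul_smul, inv_mul_cancel₀ hP0, one_smul]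
          rw [h5, hv, Finset.smul_sum]
          refine Finset.sum_congr rfl fun j _ => ?_
          rw [smul_smul, Algebra.smul_def]
        rw [this]
        exact hz
      · have : (M.map (algebraMap K (AdjoinRoot (cK K a b c))) *ᵥ
            (NGH.pb (algebraMap R K a) (algebraMap R K b) (algebraMap R K c))) i =
            NGH.pb (algebraMap R K a) (algebraMap R K b) (algebraMap R K c) i := by
          rw [Matrix.mulVec, dotProduct]
          simp only [Matrix.map_apply, M, Matrix.updateRow_ne hi]
          rw [Finset.sum_eq_single i]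
          · simp
          · intro j _ hj
            rw [Matrix.one_apply_ne (Ne.symm hj), map_zero, zero_mul]
          · intro h
            exact absurd (Finset.mem_univ i) h
        rw [this]
        exact isIntegral_pb a b c i
    rw [h3, hM, discr_pb] at h4
    obtain ⟨r, hr⟩ := IsIntegrallyClosed.isIntegral_iff.mp h4
    have h6 : P ^ 2 * r = v k ^ 2 * disc a b c := by
      apply IsFractionRing.injective R K
      have h7 : algebraMap R K (disc a b c) = disc (algebraMap R K a) (algebraMap R K b)
          (algebraMap R K c) := by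
        simp only [disc, map_sub, map_add, map_mul, map_pow, map_ofNat]
      rw [map_mul, map_mul, map_pow, map_pow, hr, h7]
      field_simp
    exact hd (hP.pow_dvd_of_dvd_mul_left 2 (fun h => hk (hP.dvd_of_dvd_pow h)) ⟨r, h6.symm⟩)

/-- The order is integrally closed. -/
theorem mem_of_integral (hK : Irreducible (cK K a b c)) (hd : Squarefree (disc a b c))
    (z : AdjoinRoot (cK K a b c)) (hz : IsIntegral R z) : z ∈ (toL K a b c).range := by
  classical
  have key : ∀ D : R, D ≠ 0 → ∀ z : AdjoinRoot (cK K a b c), IsIntegral R z →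
      algebraMap R K D • z ∈ (toL K a b c).range → z ∈ (toL K a b c).range := by
    intro D
    induction D using WfDvdMonoid.induction_on_irreducible with
    | zero => exact fun h => absurd rfl h
    | unit u hu =>
      intro _ z _ h
      obtain ⟨w, hw⟩ := hu.exists_left_inv
      have h1 : z = toL K a b c (algebraMap R _ w) * (algebraMap R K u • z) := by
        rw [toL_of, Algebra.smul_def, ← mul_assoc, IsScalarTower.algebraMap_apply R K
          (AdjoinRoot (cK K a b c)) w, ← map_mul, ← map_mul, hw, map_one, map_one, one_mul]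
      rw [h1]
      exact Subring.mul_mem _ ⟨_, rfl⟩ h
    | mul D' P hD' hP ih =>
      intro _ z hz h
      refine ih hD' z hz ?_
      refine step a b c hK P hP.prime ?_ _ ?_ ?_
      · intro h2
        rw [pow_two] at h2
        exact hP.not_isUnit (hd P h2)
      · rw [Algebra.smul_def, ← IsScalarTower.algebraMap_apply R K (AdjoinRoot (cK K a b c))]
        exact isIntegral_algebraMap.mul hz
      · rw [smul_smul, ← map_mul]
        exact h
  obtain ⟨D, hD, v, hv⟩ : ∃ D : R, D ≠ 0 ∧ ∃ v : Fin 3 → R,
      algebraMap R K D • z = ∑ i, algebraMap R K (v i) • NGH.pb _ _ _ i := by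
    obtain ⟨D, hD⟩ := IsLocalization.exist_integer_multiples_of_finset (nonZeroDivisors R)
      (Finset.univ.image fun i => (NGH.pb (algebraMap R K a) (algebraMap R K b)
        (algebraMap R K c)).repr z i)
    have hD' : ∀ i, ∃ r : R, algebraMap R K r = (D : R) • (NGH.pb (algebraMap R K a)
        (algebraMap R K b) (algebraMap R K c)).repr z i := fun i =>
      hD _ (Finset.mem_image_of_mem _ (Finset.mem_univ i))
    choose v hv using hD'
    refine ⟨D, nonZeroDivisors.coe_ne_zero D, v, ?_⟩
    conv_lhs => rw [← (NGH.pb (algebraMap R K a) (algebraMap R K b) (algebraMap R K c)).sum_repr z]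
    rw [Finset.smul_sum]
    refine Finset.sum_congr rfl fun i _ => ?_
    rw [hv, smul_smul, Algebra.smul_def (D : R)]
  exact key D hD z hz ((mem_range_toL a b c _).mpr ⟨v, hv⟩)

end Int

end CG

end Pool.PRL
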