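import Pool.Agent.H25.PRL.CGD

/-!
The primes above `P` in `R[X] / (X^3 + a X^2 + b X + c)`, when the cubic is modulo `P` the product
of a linear and of an irreducible quadratic polynomial.
-/

set_option autoImplicit false

namespace Pool.PRL

open Polynomial Matrix Pool.AVR Pool.AVS

namespace CG

section Ideals

variable {R : Type} [CommRing R] (a b c : R)

/-- The ideal of the root. -/
noncomputable def q1 (P e : R) : Ideal (AdjoinRoot (cub a b c)) :=
  Ideal.span {AdjoinRoot.mk _ (C P), AdjoinRoot.mk _ (X - C e)}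

/-- The ideal of the quadratic factor. -/
noncomputable def q2 (P β γ : R) : Ideal (AdjoinRoot (cub a b c)) :=
  Ideal.span {AdjoinRoot.mk _ (C P), AdjoinRoot.mk _ (X ^ 2 + C β * X + C γ)}

variable {a b c} {P e β γ : R}

/-- The congruence. -/
theorem cub_cong (h1 : P ∣ a - (β - e)) (h2 : P ∣ b - (γ - e * β)) (h3 : P ∣ c + e * γ) :
    ∃ t : R[X], cub a b c = (X - C e) * (X ^ 2 + C β * X + C γ) + C P * t := by
  obtain ⟨x, hx⟩ := h1
  obtain ⟨y, hy⟩ := h2
  obtain ⟨z, hz⟩ := h3
  have ha : a = β - e + P * x := by linear_combination hx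
  have hb : b = γ - e * β + P * y := by linear_combination hy
  have hc : c = -(e * γ) + P * z := by linear_combination hz
  refine ⟨C x * X ^ 2 + C y * X + C z, ?_⟩
  rw [ha, hb, hc, cub]
  simp only [C_add, C_sub, C_mul, C_neg]
  ring

theorem q1_mul_q2 (h1 : P ∣ a - (β - e)) (h2 : P ∣ b - (γ - e * β)) (h3 : P ∣ c + e * γ)
    (hcop : IsCoprime P (e ^ 2 + β * e + γ)) :
    q1 a b c P e * q2 a b c P β γ = Ideal.span {AdjoinRoot.mk _ (C P)} := by
  obtain ⟨t, ht⟩ := cub_cong h1 h2 h3
  have h0 : AdjoinRoot.mk (cub a b c) (X - C e) *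
      AdjoinRoot.mk (cub a b c) (X ^ 2 + C β * X + C γ) +
      AdjoinRoot.mk (cub a b c) (C P) * AdjoinRoot.mk (cub a b c) t = 0 := by
    rw [← map_mul, ← map_mul, ← map_add]
    exact (congrArg (AdjoinRoot.mk (cub a b c)) ht).symm.trans AdjoinRoot.mk_self
  apply le_antisymm
  · rw [q1, q2, Ideal.span_mul_span', Ideal.span_le]
    rintro _ ⟨x, hx, y, hy, rfl⟩
    simp only [SetLike.mem_coe]
    rw [Ideal.mem_span_singleton]
    rcases hx with rfl | hx
    · exact Dvd.intro _ rfl
    · rcases hy with rfl | hy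
      · exact Dvd.intro_left _ rfl
      · rw [Set.mem_singleton_iff] at hx hy
        rw [hx, hy]
        exact ⟨-AdjoinRoot.mk (cub a b c) t, by linear_combination h0⟩
  · rw [Ideal.span_le, Set.singleton_subset_iff, SetLike.mem_coe]
    obtain ⟨α, α', hα⟩ := hcop
    have hα2 : AdjoinRoot.mk (cub a b c) (C P) =
        AdjoinRoot.mk (cub a b c) (C α) * (AdjoinRoot.mk (cub a b c) (C P) *
          AdjoinRoot.mk (cub a b c) (C P)) +
        AdjoinRoot.mk (cub a b c) (C α') * (AdjoinRoot.mk (cub a b c) (C P) *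
          AdjoinRoot.mk (cub a b c) (X ^ 2 + C β * X + C γ)) +
        (-AdjoinRoot.mk (cub a b c) (C α' * (X + C β + C e))) *
          (AdjoinRoot.mk (cub a b c) (X - C e) * AdjoinRoot.mk (cub a b c) (C P)) := by
      have h4 : C α * C P + C α' * (C e ^ 2 + C β * C e + C γ) = (1 : R[X]) := by
        rw [← C_1, ← hα]
        simp only [C_add, C_mul, C_pow]
      have h8 : (C P : R[X]) = C α * (C P * C P) + C α' * (C P * (X ^ 2 + C β * X + C γ)) +
          (-(C α' * (X + C β + C e))) * ((X - C e) * C P) := by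
        linear_combination (-(C P : R[X])) * h4
      have h9 := congrArg (AdjoinRoot.mk (cub a b c)) h8
      simp only [map_add, map_mul, map_neg, map_sub] at h9 ⊢
      exact h9
    have m1 : AdjoinRoot.mk (cub a b c) (C P) ∈ q1 a b c P e :=
      Ideal.subset_span (Set.mem_insert _ _)
    have m2 : AdjoinRoot.mk (cub a b c) (C P) ∈ q2 a b c P β γ :=
      Ideal.subset_span (Set.mem_insert _ _)
    have m3 : AdjoinRoot.mk (cub a b c) (X - C e) ∈ q1 a b c P e :=
      Ideal.subset_span (Set.mem_insert_of_mem _ rfl)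
    have m4 : AdjoinRoot.mk (cub a b c) (X ^ 2 + C β * X + C γ) ∈ q2 a b c P β γ :=
      Ideal.subset_span (Set.mem_insert_of_mem _ rfl)
    rw [hα2]
    exact Ideal.add_mem _ (Ideal.add_mem _ (Ideal.mul_mem_left _ _ (Ideal.mul_mem_mul m1 m2))
      (Ideal.mul_mem_left _ _ (Ideal.mul_mem_mul m1 m4)))
      (Ideal.mul_mem_left _ _ (Ideal.mul_mem_mul m3 m2))

theorem q1_ne_top (h1 : P ∣ a - (β - e)) (h2 : P ∣ b - (γ - e * β)) (h3 : P ∣ c + e * γ)
    (hP : ¬ IsUnit P) : q1 a b c P e ≠ ⊤ := by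
  intro htop
  obtain ⟨t, ht⟩ := cub_cong h1 h2 h3
  let φ : AdjoinRoot (cub a b c) →+* R ⧸ Ideal.span {P} :=
    AdjoinRoot.lift (Ideal.Quotient.mk (Ideal.span {P})) (Ideal.Quotient.mk (Ideal.span {P}) e) (by
      rw [ht]
      simp only [eval₂_add, eval₂_mul, eval₂_sub, eval₂_X, eval₂_C, sub_self, zero_mul, zero_add]
      rw [Ideal.Quotient.eq_zero_iff_mem.mpr (Ideal.mem_span_singleton_self P), zero_mul])
  have hle : q1 a b c P e ≤ RingHom.ker φ := by
    rw [q1, Ideal.span_le]
    rintro x (rfl | hx)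
    · rw [SetLike.mem_coe, RingHom.mem_ker]
      simp only [φ]
      rw [AdjoinRoot.lift_mk, eval₂_C]
      exact Ideal.Quotient.eq_zero_iff_mem.mpr (Ideal.mem_span_singleton_self P)
    · rw [Set.mem_singleton_iff] at hx
      rw [hx, SetLike.mem_coe, RingHom.mem_ker]
      simp only [φ]
      rw [AdjoinRoot.lift_mk, eval₂_sub, eval₂_X, eval₂_C, sub_self]
  rw [htop, top_le_iff, Ideal.eq_top_iff_one, RingHom.mem_ker, map_one] at hle
  have h5 : (1 : R) ∈ Ideal.span {P} := Ideal.Quotient.eq_zero_iff_mem.mp hle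
  rw [← Ideal.eq_top_iff_one, Ideal.span_singleton_eq_top] at h5
  exact hP h5

theorem mem_q1 {x : R} (hx : P ∣ x - e) : AdjoinRoot.mk (cub a b c) (C x - X) ∈ q1 a b c P e := by
  obtain ⟨y, hy⟩ := hx
  have h : AdjoinRoot.mk (cub a b c) (C x - X) = AdjoinRoot.mk (cub a b c) (C y) *
      AdjoinRoot.mk (cub a b c) (C P) + (-1) * AdjoinRoot.mk (cub a b c) (X - C e) := by
    have h1 : (C x : R[X]) - X = C y * C P + (-1) * (X - C e) := by
      have h2 : (C x : R[X]) - C e = C P * C y := by rw [← C_sub, hy, C_mul]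
      linear_combination h2
    rw [h1, map_add, map_mul, map_mul, map_neg, map_one]
  rw [h]
  exact Ideal.add_mem _ (Ideal.mul_mem_left _ _ (Ideal.subset_span (Set.mem_insert _ _)))
    (Ideal.mul_mem_left _ _ (Ideal.subset_span (Set.mem_insert_of_mem _ rfl)))

theorem q2_prime [IsDomain R] [IsPrincipalIdealRing R] (hP : Prime P)
    (h1 : P ∣ a - (β - e)) (h2 : P ∣ b - (γ - e * β)) (h3 : P ∣ c + e * γ)
    (hr : ∀ x : R, ¬ P ∣ x ^ 2 + β * x + γ) : (q2 a b c P β γ).IsPrime := by
  obtain ⟨t, ht⟩ := cub_cong h1 h2 h3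
  have hmax : (Ideal.span {P}).IsMaximal :=
    PrincipalIdealRing.isMaximal_of_irreducible hP.irreducible
  let _ : Field (R ⧸ Ideal.span {P}) := Ideal.Quotient.field _
  let π : R →+* R ⧸ Ideal.span {P} := Ideal.Quotient.mk (Ideal.span {P})
  have hπ : Function.Surjective π := Ideal.Quotient.mk_surjective
  let hbar : (R ⧸ Ideal.span {P})[X] := X ^ 2 + C (π β) * X + C (π γ)
  have hmon : hbar.Monic := by
    simp only [hbar]; monicity!
  have hdeg : hbar.natDegree = 2 := by
    simp only [hbar]; compute_degree!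
  have hirr : Irreducible hbar := by
    rw [hmon.irreducible_iff_roots_eq_zero_of_degree_le_three (by omega) (by omega)]
    rw [Multiset.eq_zero_iff_forall_notMem]
    intro x hx
    rw [mem_roots hmon.ne_zero, IsRoot.def] at hx
    obtain ⟨y, rfl⟩ := hπ x
    simp only [hbar, eval_add, eval_mul, eval_pow, eval_X, eval_C] at hx
    rw [← map_pow, ← map_mul, ← map_add, ← map_add] at hx
    exact hr y (Ideal.mem_span_singleton.mp (Ideal.Quotient.eq_zero_iff_mem.mp hx))
  let I : Ideal R[X] := Ideal.comap (Polynomial.mapRingHom π) (Ideal.span {hbar})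
  have hbarP : (Ideal.span {hbar}).IsPrime := by
    rw [Ideal.span_singleton_prime hmon.ne_zero]
    exact hirr.prime
  have hI : I.IsPrime := Ideal.IsPrime.comap _
  have hI2 : I = Ideal.span {C P, X ^ 2 + C β * X + C γ} := by
    apply le_antisymm
    · intro x hx
      rw [Ideal.mem_comap, Ideal.mem_span_singleton] at hx
      obtain ⟨y, hy⟩ := hx
      obtain ⟨z, rfl⟩ := Polynomial.map_surjective π hπ y
      have h4 : (x - (X ^ 2 + C β * X + C γ) * z).map π = 0 := by
        rw [Polynomial.map_sub, Polynomial.map_mul]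
        rw [coe_mapRingHom] at hy
        rw [hy]
        simp [hbar]
      have h5 : C P ∣ x - (X ^ 2 + C β * X + C γ) * z := by
        rw [Polynomial.C_dvd_iff_dvd_coeff]
        intro i
        have h6 := congrArg (fun s => s.coeff i) h4
        simp only [coeff_map, coeff_zero] at h6
        exact Ideal.mem_span_singleton.mp (Ideal.Quotient.eq_zero_iff_mem.mp h6)
      obtain ⟨w, hw⟩ := h5
      have h7 : x = w * C P + z * (X ^ 2 + C β * X + C γ) := by linear_combination hw
      rw [h7]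
      exact Ideal.add_mem _ (Ideal.mul_mem_left _ _ (Ideal.subset_span (Set.mem_insert _ _)))
        (Ideal.mul_mem_left _ _ (Ideal.subset_span (Set.mem_insert_of_mem _ rfl)))
    · rw [Ideal.span_le]
      rintro x (rfl | hx)
      · rw [SetLike.mem_coe, Ideal.mem_comap, coe_mapRingHom, map_C]
        have : π P = 0 := Ideal.Quotient.eq_zero_iff_mem.mpr (Ideal.mem_span_singleton_self P)
        rw [this, C_0]
        exact Ideal.zero_mem _
      · rw [Set.mem_singleton_iff] at hx
        rw [hx, SetLike.mem_coe, Ideal.mem_comap, coe_mapRingHom]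
        have : (X ^ 2 + C β * X + C γ : R[X]).map π = hbar := by simp [hbar]
        rw [this]
        exact Ideal.mem_span_singleton_self _
  have hq : q2 a b c P β γ = I.map (AdjoinRoot.mk (cub a b c)) := by
    rw [hI2, Ideal.map_span, q2, Set.image_pair]
  rw [hq]
  refine Ideal.map_isPrime_of_surjective AdjoinRoot.mk_surjective ?_
  intro x hx
  rw [RingHom.mem_ker, AdjoinRoot.mk_eq_zero] at hx
  rw [hI2]
  refine Ideal.mem_of_dvd _ hx ?_
  rw [ht, mul_comm (C P) t]
  exact Ideal.add_mem _ (Ideal.mul_mem_left _ _ (Ideal.subset_span (Set.mem_insert_of_mem _ rfl)))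
    (Ideal.mul_mem_left _ _ (Ideal.subset_span (Set.mem_insert _ _)))

/-- One of two values is not divisible by `P^2`. -/
theorem val_sq (hP : Prime P) (h1 : P ∣ a - (β - e)) (h2 : P ∣ b - (γ - e * β))
    (hr : ∀ x : R, ¬ P ∣ x ^ 2 + β * x + γ) [IsDomain R] :
    ∃ x : R, P ∣ x - e ∧ ¬ P ^ 2 ∣ x ^ 3 + a * x ^ 2 + b * x + c := by
  by_contra hcon
  push Not at hcon
  have e1 := hcon e (by rw [sub_self]; exact dvd_zero _)
  have e2 := hcon (e + P) (by rw [add_sub_cancel_left])
  have e3 : P ^ 2 ∣ P * (3 * e ^ 2 + 2 * a * e + b) := by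
    have h4 : P * (3 * e ^ 2 + 2 * a * e + b) = ((e + P) ^ 3 + a * (e + P) ^ 2 + b * (e + P) + c) -
        (e ^ 3 + a * e ^ 2 + b * e + c) - P ^ 2 * (3 * e + P + a) := by ring
    rw [h4]
    exact dvd_sub (dvd_sub e2 e1) (Dvd.intro _ rfl)
  rw [pow_two, mul_dvd_mul_iff_left hP.ne_zero] at e3
  apply hr e
  have h5 : e ^ 2 + β * e + γ = (3 * e ^ 2 + 2 * a * e + b) - (2 * e) * (a - (β - e)) -
      (b - (γ - e * β)) := by ring
  rw [h5]
  exact dvd_sub (dvd_sub e3 (Dvd.dvd.mul_left h1 _)) h2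

end Ideals

section Norm

theorem relNorm_two {R O : Type} [CommRing R] [IsDomain R] [IsPrincipalIdealRing R] [CommRing O]
    [IsDedekindDomain O] [Algebra R O] [Module.Finite R O] [Module.IsTorsionFree R O]
    (h3 : Module.finrank R O = 3) (P : R) (hP : Prime P) (p1 p2 : Ideal O)
    (h : p1 * p2 = Ideal.span {algebraMap R O P}) (hp1 : p1 ≠ ⊤) (x : O) (hx : x ∈ p1)
    (hn : ¬ P ^ 2 ∣ Algebra.intNorm R O x) :
    Ideal.relNorm R p2 = Ideal.span {P ^ 2} := by
  have hP1 : Prime (Ideal.span {P}) := by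
    rw [Ideal.prime_iff_isPrime]
    · rwa [Ideal.span_singleton_prime hP.ne_zero]
    · rw [Ne, Ideal.span_singleton_eq_bot]
      exact hP.ne_zero
  have h1 : Ideal.relNorm R p1 * Ideal.relNorm R p2 = Ideal.span {P} ^ 3 := by
    rw [← map_mul, h, ← h3, ← Ideal.relNorm_algebraMap O (Ideal.span {P}), Ideal.map_span,
      Set.image_singleton]
  obtain ⟨s, hs3, hs⟩ := (dvd_prime_pow hP1 3).mp (Dvd.intro _ h1)
  obtain ⟨t, ht3, ht⟩ := (dvd_prime_pow hP1 3).mp (Dvd.intro_left _ h1)
  rw [associated_iff_eq] at hs ht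
  rw [hs, ht, ← pow_add] at h1
  have hst : s + t = 3 := by
    exact (Ideal.pow_right_strictAnti (Ideal.span {P}) hP1.ne_zero (fun h7 =>
      hP1.not_isUnit (Ideal.isUnit_iff.mpr h7))).injective h1
  have hs1 : s ≤ 1 := by
    by_contra hs2
    push Not at hs2
    apply hn
    have h4 : Algebra.intNorm R O x ∈ Ideal.relNorm R p1 := Ideal.intNorm_mem_spanNorm R hx
    rw [hs] at h4
    have h5 := Ideal.pow_le_pow_right hs2 h4
    rw [Ideal.span_singleton_pow, Ideal.mem_span_singleton] at h5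
    exact h5
  have hs0 : s ≠ 0 := by
    rintro rfl
    rw [pow_zero, Ideal.one_eq_top] at hs
    have h6 := Ideal.relNorm_le_comap R p1
    rw [hs, top_le_iff, Ideal.eq_top_iff_one, Ideal.mem_comap, map_one, ← Ideal.eq_top_iff_one]
      at h6
    exact hp1 h6
  have ht2 : t = 2 := by omega
  rw [ht, ht2, Ideal.span_singleton_pow]

end Norm

end CG

end Pool.PRL
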