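import Mathlib

/-!
Counting in a finite abelian group: at least `2^#T` pairs `(S, c)`, `S` a subset of `T`,
`c` an element of the group, satisfy `c^2 * prod_{i in S} g i = 1`.
-/

set_option autoImplicit false

namespace Pool.PRL

open Finset

theorem add_aux {A : Type*} [AddCommGroup A] (x y z : A) :
    (-(x + y) + (z + y)) + 2 • (-z) + (x + z) = 0 := by
  rw [two_nsmul]; abel

theorem mul_aux {C : Type*} [CommGroup C] (x y z : C) :
    ((x * y)⁻¹ * (z * y)) * (z⁻¹) ^ 2 * (x * z) = 1 :=
  add_aux (A := Additive C) x y z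

theorem card_sq_fibre {C : Type*} [CommGroup C] [Finite C] (x : C) (hx : ∃ c : C, c ^ 2 * x = 1) :
    Nat.card {c : C // c ^ 2 * x = 1} = Nat.card (powMonoidHom 2 : C →* C).ker := by
  obtain ⟨c0, hc0⟩ := hx
  refine Nat.card_congr
    { toFun := fun c => ⟨c.1 * c0⁻¹, ?_⟩
      invFun := fun k => ⟨k.1 * c0, ?_⟩
      left_inv := fun c => by simp
      right_inv := fun k => by simp }
  · rw [MonoidHom.mem_ker, powMonoidHom_apply, mul_pow, inv_pow]
    have h1 := c.2
    have h2 : c.1 ^ 2 = c0 ^ 2 := mul_right_cancel (h1.trans hc0.symm)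
    rw [h2, mul_inv_cancel]
  · have h1 : (k.1) ^ 2 = 1 := k.2
    rw [mul_pow, h1, one_mul, hc0]

theorem group_count {C : Type*} [CommGroup C] [Finite C] {ι : Type*} [Fintype ι] [DecidableEq ι]
    (g : ι → C) :
    2 ^ Fintype.card ι ≤ Nat.card {p : Finset ι × C // p.2 ^ 2 * ∏ i ∈ p.1, g i = 1} := by
  classical
  have := Fintype.ofFinite C
  let sq : C →* C := powMonoidHom 2
  let N : Finset (Finset ι) := univ.filter fun S => ∃ c : C, c ^ 2 * ∏ i ∈ S, g i = 1
  -- the classes of the subsets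
  have hN : 2 ^ Fintype.card ι ≤ #N * Nat.card (C ⧸ sq.range) := by
    have h1 : (2 : ℕ) ^ Fintype.card ι = #(univ : Finset (Finset ι)) := by
      rw [card_univ, Fintype.card_finset]
    have : Fintype (C ⧸ sq.range) := Fintype.ofFinite _
    rw [h1, Nat.card_eq_fintype_card, ← card_univ]
    let φ : Finset ι → C ⧸ sq.range := fun S => QuotientGroup.mk (∏ i ∈ S, g i)
    refine card_le_mul_card_image_of_maps_to (f := φ) (fun _ _ => mem_univ _) _ ?_
    intro y _
    by_cases hne : (univ.filter fun S => φ S = y).Nonempty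
    · obtain ⟨S0, hS0⟩ := hne
      rw [mem_filter] at hS0
      refine card_le_card_of_injOn (fun S => symmDiff S S0) ?_ ?_
      · intro S hS
        rw [mem_coe, mem_filter] at hS
        rw [mem_coe, mem_filter]
        refine ⟨mem_univ _, ?_⟩
        have h2 : φ S = φ S0 := hS.2.trans hS0.2.symm
        have h3 : (∏ i ∈ S, g i)⁻¹ * ∏ i ∈ S0, g i ∈ sq.range := QuotientGroup.eq.mp h2
        obtain ⟨d, hd⟩ := h3
        have hd' : d ^ 2 = (∏ i ∈ S, g i)⁻¹ * ∏ i ∈ S0, g i := hd
        have e1 : ∏ i ∈ S, g i = (∏ i ∈ S \ S0, g i) * ∏ i ∈ S ∩ S0, g i := by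
          rw [← prod_union (disjoint_sdiff_inter S S0), sdiff_union_inter]
        have e2 : ∏ i ∈ S0, g i = (∏ i ∈ S0 \ S, g i) * ∏ i ∈ S ∩ S0, g i := by
          rw [inter_comm, ← prod_union (disjoint_sdiff_inter S0 S), sdiff_union_inter]
        have e3 : ∏ i ∈ symmDiff S S0, g i = (∏ i ∈ S \ S0, g i) * ∏ i ∈ S0 \ S, g i := by
          rw [symmDiff_def, sup_eq_union, prod_union disjoint_sdiff_sdiff]
        refine ⟨d * (∏ i ∈ S0 \ S, g i)⁻¹, ?_⟩
        rw [e3, mul_pow, hd', e1, e2]
        exact mul_aux _ _ _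
      · intro S _ S' _ h
        exact symmDiff_left_injective S0 h
    · rw [not_nonempty_iff_eq_empty] at hne
      rw [hne, card_empty]
      exact Nat.zero_le _
  -- kernel and cokernel of the squaring map have the same cardinality
  have hK : Nat.card (C ⧸ sq.range) = Nat.card sq.ker := by
    have e1 : Nat.card C = Nat.card (C ⧸ sq.range) * Nat.card sq.range :=
      Subgroup.card_eq_card_quotient_mul_card_subgroup _
    have e2 : Nat.card C = Nat.card (C ⧸ sq.ker) * Nat.card sq.ker :=
      Subgroup.card_eq_card_quotient_mul_card_subgroup _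
    have e3 : Nat.card (C ⧸ sq.ker) = Nat.card sq.range :=
      Nat.card_congr (QuotientGroup.quotientKerEquivRange sq).toEquiv
    have e4 : 0 < Nat.card sq.range := Nat.card_pos
    rw [e3] at e2
    rw [e2] at e1
    have : Nat.card sq.range * Nat.card sq.ker =
        Nat.card sq.range * Nat.card (C ⧸ sq.range) := by rw [e1, mul_comm]
    exact (Nat.eq_of_mul_eq_mul_left e4 this).symm
  rw [hK] at hN
  refine hN.trans (le_of_eq ?_)
  -- count the pairs by their first component
  have e : {p : Finset ι × C // p.2 ^ 2 * ∏ i ∈ p.1, g i = 1} ≃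
      (S : {S // S ∈ N}) × {c : C // c ^ 2 * ∏ i ∈ S.1, g i = 1} :=
    { toFun := fun p => ⟨⟨p.1.1, by
          rw [mem_filter]; exact ⟨mem_univ _, p.1.2, p.2⟩⟩, ⟨p.1.2, p.2⟩⟩
      invFun := fun q => ⟨(q.1.1, q.2.1), q.2.2⟩
      left_inv := fun p => rfl
      right_inv := fun q => rfl }
  rw [Nat.card_congr e, Nat.card_sigma]
  rw [sum_congr rfl (g := fun _ => Nat.card sq.ker)]
  · rw [sum_const, card_univ, Fintype.card_coe, smul_eq_mul]
  · intro S _
    exact card_sq_fibre _ (mem_filter.mp S.2).2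

end Pool.PRL
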